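import Pool.Agent.H77.GQ.Stm

set_option autoImplicit false

/-! Project GQ (helper77), module HNP (helper91). -/

namespace Pool.Agent.H91.GQ

open Pool.Agent.H77.TF Pool.Agent.H77.GR Pool.Agent.H77.GQ

theorem card_range_eq {α β γ : Type} (f : α → β) (g : α → γ) (h : ∀ i j, f i = f j ↔ g i = g j) :
    Nat.card (Set.range f) = Nat.card (Set.range g) := by
  have e : Setoid.ker f = Setoid.ker g := Setoid.ext fun i j => h i j
  rw [← Nat.card_congr (Setoid.quotientKerEquivRange f),
    ← Nat.card_congr (Setoid.quotientKerEquivRange g), e]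

/-- Two planes of forms through `A s` agree iff the second form is in the first plane. -/
theorem span_pair_eq_iff {K : Type} [Field K] {ν : Type} {A : ν → Fin 3 → K} (hA : Simple A)
    {s i j : ν} (hj : j ≠ s) :
    Submodule.span K {A s, A i} = Submodule.span K {A s, A j} ↔
      A j ∈ Submodule.span K {A s, A i} := by
  constructor
  · intro h
    rw [h]
    exact Submodule.subset_span (Set.mem_insert_of_mem _ rfl)
  · intro h
    have hs : ∀ x : Fin 3 → K, A s ∈ Submodule.span K {A s, x} := fun x =>
      Submodule.subset_span (Set.mem_insert _ _)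
    have hx : ∀ x : Fin 3 → K, x ∈ Submodule.span K {A s, x} := fun x =>
      Submodule.subset_span (Set.mem_insert_of_mem _ rfl)
    apply le_antisymm
    · rw [Submodule.span_le, Set.insert_subset_iff, Set.singleton_subset_iff]
      refine ⟨hs _, ?_⟩
      obtain ⟨x, y, hxy⟩ := Submodule.mem_span_pair.1 h
      have hy : y ≠ 0 := by
        rintro rfl
        rw [zero_smul, add_zero] at hxy
        exact hA.2 j s hj x hxy.symm
      have h1 : A i = y⁻¹ • (A j - x • A s) := by
        rw [← hxy, add_sub_cancel_left, smul_smul, inv_mul_cancel₀ hy, one_smul]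
      rw [h1]
      exact Submodule.smul_mem _ _ (Submodule.sub_mem _ (hx _) (Submodule.smul_mem _ _ (hs _)))
    · rw [Submodule.span_le, Set.insert_subset_iff, Set.singleton_subset_iff]
      exact ⟨hs _, h⟩

/-- HNP -/
theorem hnp : S_HNP := by
  intro K K' _ _ n A B hA hB hS s
  refine card_range_eq _ _ fun i j => ?_
  have hj : Fin.castLE s.2.le j ≠ s := by
    intro h
    have h1 := congrArg Fin.val h
    have h2 := j.2
    simp only [Fin.val_castLE] at h1
    omega
  show Submodule.span K {A s, A (Fin.castLE s.2.le i)} = Submodule.span K {A s, A (Fin.castLE s.2.le j)} ↔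
    Submodule.span K' {B s, B (Fin.castLE s.2.le i)} = Submodule.span K' {B s, B (Fin.castLE s.2.le j)}
  rw [span_pair_eq_iff hA hj, span_pair_eq_iff hB hj]
  exact hS _ _ _

end Pool.Agent.H91.GQ
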