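import Pool.Agent.H77.GQ.Stm3

set_option autoImplicit false

/-! Project GQ (helper77), module EXO (helper91): a free arrangement has the exponents `1, a, b`. -/

namespace Pool.Agent.H91.GQ

open MvPolynomial Module Pool.Agent.H77.TF Pool.Agent.H77.GQ

theorem coeff_mul_hom {K : Type} [Field K] {d : ℕ} (hd : 2 ≤ d) {c f : MvPolynomial (Fin 3) K}
    (hf : f.IsHomogeneous d) (k : Fin 3) : coeff (Finsupp.single k 1) (c * f) = 0 := by
  rw [coeff_mul]
  refine Finset.sum_eq_zero fun x hx => ?_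
  rw [Finset.HasAntidiagonal.mem_antidiagonal] at hx
  have h1 : x.2.degree ≤ 1 := by
    have := congrArg Finsupp.degree hx
    rw [map_add, Finsupp.degree_single] at this
    omega
  rw [hf.coeff_eq_zero (by omega), mul_zero]

theorem coeff_lin {K : Type} [Field K] (a : Fin 3 → K) (k : Fin 3) :
    coeff (Finsupp.single k 1) (lin a) = a k := by
  unfold lin
  rw [coeff_sum]
  simp only [coeff_C_mul, coeff_X, Finsupp.single_left_inj one_ne_zero]
  simp

theorem evl_sum {K : Type} [Field K] (a : Fin 3 → K) (c : Fin 3 → MvPolynomial (Fin 3) K)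
    (v : Fin 3 → Fin 3 → MvPolynomial (Fin 3) K) :
    evl a (∑ j, c j • v j) = ∑ j, c j * evl a (v j) := by
  unfold evl
  simp only [Finset.sum_apply, Pi.smul_apply, smul_eq_mul, Finset.mul_sum]
  rw [Finset.sum_comm]
  exact Finset.sum_congr rfl fun j _ => Finset.sum_congr rfl fun i _ => by ring

theorem evl_hom {K : Type} [Field K] (a : Fin 3 → K) {v : Fin 3 → MvPolynomial (Fin 3) K} {m : ℕ}
    (hv : ∀ j, (v j).IsHomogeneous m) : (evl a v).IsHomogeneous m := by
  unfold evl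
  refine IsHomogeneous.sum _ _ _ fun i _ => ?_
  simpa using (isHomogeneous_C (Fin 3) (a i)).mul (hv i)

theorem zero_of_hom_zero {K : Type} [Field K] {a : Fin 3 → K} {f : MvPolynomial (Fin 3) K}
    (hf : f.IsHomogeneous 0) (h : lin a ∣ f) : f = 0 := by
  ext d
  rw [coeff_zero]
  rcases eq_or_ne d 0 with rfl | hd
  · obtain ⟨g, rfl⟩ := h
    have h1 : constantCoeff (lin a * g) = 0 := by
      rw [map_mul]
      have h2 : constantCoeff (lin a) = 0 := by simp [lin]
      rw [h2, zero_mul]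
    exact h1
  · refine hf.coeff_eq_zero fun h1 => hd ?_
    exact (Finsupp.degree_eq_zero_iff d).1 h1

theorem exists_one {K : Type} [Field K] {ν : Type} {A : ν → Fin 3 → K} (hA : Simple A) (i₀ : ν)
    {e : Fin 3 → ℕ} (he : HasExp A e) : ∃ j, e j = 1 := by
  by_contra hcon
  push Not at hcon
  obtain ⟨b, hb⟩ := he
  have hθ : (fun i => X i : Fin 3 → MvPolynomial (Fin 3) K) ∈ LD A := fun i => dvd_refl _
  have h1 := b.sum_repr ⟨_, hθ⟩
  have h2 := congrArg (Subtype.val (p := fun x => x ∈ LD A)) h1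
  rw [AddSubmonoidClass.coe_finsetSum] at h2
  have h3 : evl (A i₀) (∑ j, (b.repr ⟨_, hθ⟩ j) • (b j : Fin 3 → MvPolynomial (Fin 3) K)) =
      lin (A i₀) := congrArg (evl (A i₀)) h2
  rw [evl_sum] at h3
  refine hA.1 i₀ ?_
  ext k
  rw [Pi.zero_apply, ← coeff_lin (A i₀) k, ← h3, coeff_sum]
  refine Finset.sum_eq_zero fun j _ => ?_
  have h4 := evl_hom (A i₀) (hb j)
  rcases Nat.lt_or_ge (e j) 2 with h5 | h5
  · have h6 : e j = 0 := by
      have := hcon j
      omega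
    rw [h6] at h4
    rw [zero_of_hom_zero h4 ((b j).2 i₀), mul_zero, coeff_zero]
  · exact coeff_mul_hom h5 h4 k

theorem hasExp_perm {K : Type} [Field K] {ν : Type} {A : ν → Fin 3 → K} {e : Fin 3 → ℕ}
    (σ : Equiv.Perm (Fin 3)) (h : HasExp A e) : HasExp A (fun j => e (σ j)) := by
  obtain ⟨b, hb⟩ := h
  refine ⟨b.reindex σ.symm, fun j i => ?_⟩
  rw [Basis.reindex_apply, Equiv.symm_symm]
  exact hb (σ j) i

/-- EXO -/
theorem exo (hGRD : S_GRD) : S_EXO := by
  intro K _ n A hA hn hfree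
  obtain ⟨e, he⟩ := hGRD K 3 (Fin n) A hA hfree
  obtain ⟨j₀, hj⟩ := exists_one hA ⟨0, hn⟩ he
  have h1 := hasExp_perm (Equiv.swap 0 j₀) he
  have h2 : (fun j => e (Equiv.swap 0 j₀ j)) =
      ![1, e (Equiv.swap 0 j₀ 1), e (Equiv.swap 0 j₀ 2)] := by
    funext j
    fin_cases j
    · show e (Equiv.swap 0 j₀ 0) = 1
      rw [Equiv.swap_apply_left, hj]
    · rfl
    · rfl
  rw [h2] at h1
  rcases le_total (e (Equiv.swap 0 j₀ 1)) (e (Equiv.swap 0 j₀ 2)) with h | h
  · exact ⟨_, _, h, h1⟩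
  · refine ⟨_, _, h, ?_⟩
    have h3 := hasExp_perm (Equiv.swap 1 2) h1
    have h4 : (fun j => (![1, e (Equiv.swap 0 j₀ 1), e (Equiv.swap 0 j₀ 2)] : Fin 3 → ℕ)
        (Equiv.swap 1 2 j)) = ![1, e (Equiv.swap 0 j₀ 2), e (Equiv.swap 0 j₀ 1)] := by
      have e0 : Equiv.swap (1 : Fin 3) 2 0 = 0 := by decide
      have e1 : Equiv.swap (1 : Fin 3) 2 1 = 2 := by decide
      have e2 : Equiv.swap (1 : Fin 3) 2 2 = 1 := by decide
      funext j
      fin_cases j
      · show (![1, e (Equiv.swap 0 j₀ 1), e (Equiv.swap 0 j₀ 2)] : Fin 3 → ℕ) (Equiv.swap 1 2 0) = 1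
        rw [e0]
        rfl
      · show (![1, e (Equiv.swap 0 j₀ 1), e (Equiv.swap 0 j₀ 2)] : Fin 3 → ℕ) (Equiv.swap 1 2 1) = _
        rw [e1]
        rfl
      · show (![1, e (Equiv.swap 0 j₀ 1), e (Equiv.swap 0 j₀ 2)] : Fin 3 → ℕ) (Equiv.swap 1 2 2) = _
        rw [e2]
        rfl
    rw [h4] at h3
    exact h3

end Pool.Agent.H91.GQ
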